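import Pool.Agent.Helper78.DT.Goals2

/-!
# Logarithms, cut-off powers and primes in polynomial time (unary)
-/

namespace Pool.Agent.Helper3.DT

open Pool.Agent.Helper78.DT Pool.Agent.Helper81.CC

variable {α : Type} [ToData α]

theorem cpw_succ (cap b n : ℕ) : cpw cap b (n + 1) = min cap (cpw cap b n * b) := by
  unfold cpw
  rw [Function.iterate_succ_apply']

theorem cpw_eq {cap b : ℕ} (hc : 1 ≤ cap) (hb : 1 ≤ b) (n : ℕ) :
    cpw cap b n = min cap (b ^ n) := by
  induction n with
  | zero => simp [cpw, hc]
  | succ n ih =>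
    rw [cpw_succ, ih, pow_succ]
    rcases le_total (b ^ n) cap with h | h
    · rw [min_eq_right h]
    · rw [min_eq_left h, min_eq_left (Nat.le_mul_of_pos_right _ hb),
        min_eq_left (h.trans (Nat.le_mul_of_pos_right _ hb))]

theorem cpw_le (cap b n : ℕ) : cpw cap b n ≤ cap + 1 := by
  cases n with
  | zero => simp [cpw]
  | succ n => rw [cpw_succ]; exact (min_le_left _ _).trans (Nat.le_succ _)

theorem pt_cpw {n b m : α → ℕ} (hn : PolyTime n) (hb : PolyTime b) (hm : PolyTime m) :
    PolyTime fun a => cpw (n a) (b a) (m a) := by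
  unfold cpw
  refine PolyTime.iterate_bd (s0 := fun _ : α => 1)
    (step := fun a (y : ℕ) => min (n a) (y * b a)) hm (by fun_prop) ?_
    (B := fun a => 2 * (n a + 1) + 1)
    (((PBd.const 2).mul ((PBd.nat hn).add (PBd.const 1))).add (PBd.const 1)) ?_
  · have hn' : PolyTime (fun z : α × ℕ => n z.1) := PolyTime.comp hn (by fun_prop)
    have hb' : PolyTime (fun z : α × ℕ => b z.1) := PolyTime.comp hb (by fun_prop)
    exact PolyTime.nat_min hn' (PolyTime.mul (by fun_prop) hb')
  · intro a k _
    rw [sz_nat]
    have := cpw_le (n a) (b a) k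
    unfold cpw at this
    omega

theorem filter_log (N : ℕ) (hN : N ≠ 0) (m : ℕ) :
    (List.range m).filter (fun k => decide (2 ^ (k + 1) ≤ N)) =
      List.range (min m (Nat.log 2 N)) := by
  induction m with
  | zero => simp
  | succ m ih =>
    rw [List.range_succ, List.filter_append, ih]
    by_cases hm : 2 ^ (m + 1) ≤ N
    · have h1 : m + 1 ≤ Nat.log 2 N := (Nat.le_log_iff_pow_le (by norm_num) hN).2 hm
      have h2 : min (m + 1) (Nat.log 2 N) = m + 1 := by omega
      have h3 : min m (Nat.log 2 N) = m := by omega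
      rw [h2, h3, List.range_succ]
      simp [hm]
    · have h1 : ¬ m + 1 ≤ Nat.log 2 N := fun h =>
        hm ((Nat.le_log_iff_pow_le (by norm_num) hN).1 h)
      have h2 : min (m + 1) (Nat.log 2 N) = Nat.log 2 N := by omega
      have h3 : min m (Nat.log 2 N) = Nat.log 2 N := by omega
      rw [h2, h3]
      simp [hm]

theorem pt_log {n : α → ℕ} (hn : PolyTime n) : PolyTime fun a => Nat.log 2 (n a) := by
  have h : PolyTime (fun a => ((List.range (n a)).filter
      (fun k => decide (cpw (n a + 1) 2 (k + 1) ≤ n a))).length) := by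
    refine PolyTime.length (PolyTime.filter
      (f := fun a k => decide (cpw (n a + 1) 2 (k + 1) ≤ n a)) (by fun_prop) ?_)
    have hn' : PolyTime (fun z : α × ℕ => n z.1) := PolyTime.comp hn (by fun_prop)
    exact PolyTime.decide_le (pt_cpw hn'.succ (by fun_prop) (by fun_prop)) hn'
  refine PolyTime.congr h fun a => ?_
  by_cases h0 : n a = 0
  · simp [h0]
  · have e : (fun k => decide (cpw (n a + 1) 2 (k + 1) ≤ n a)) =
        fun k => decide (2 ^ (k + 1) ≤ n a) := by
      funext k
      rw [cpw_eq (by omega) (by norm_num), decide_eq_decide]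
      omega
    rw [e, filter_log _ h0, List.length_range]
    exact min_eq_right (Nat.log_le_self 2 _)

theorem pt_prime {n : α → ℕ} (hn : PolyTime n) : PolyTime fun a => decide (n a).Prime := by
  have h : PolyTime (fun a => decide (2 ≤ n a) &&
      (List.range (n a)).all (fun m => !(decide (2 ≤ m) && decide (n a % m = 0)))) := by
    refine PolyTime.and (by fun_prop) (PolyTime.all
      (f := fun a m => !(decide (2 ≤ m) && decide (n a % m = 0))) (by fun_prop) ?_)
    have hn' : PolyTime (fun z : α × ℕ => n z.1) := PolyTime.comp hn (by fun_prop)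
    exact PolyTime.not (PolyTime.and (by fun_prop)
      (PolyTime.decide_eq (PolyTime.mod hn' (by fun_prop)) (by fun_prop)))
  refine PolyTime.congr h fun a => ?_
  rw [Bool.eq_iff_iff]
  simp only [Bool.and_eq_true, decide_eq_true_eq, List.all_eq_true, List.mem_range,
    Bool.not_eq_true', Bool.and_eq_false_iff, decide_eq_false_iff_not]
  rw [Nat.prime_def_lt']
  refine and_congr_right fun _ => forall_congr' fun m => ?_
  rw [Nat.dvd_iff_mod_eq_zero]
  tauto

theorem pt_np {n : α → ℕ} (hn : PolyTime n) : PolyTime fun a => np (n a) := by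
  unfold np
  refine PolyTime.option_getD (PolyTime.find?
    (f := fun a p => decide (n a ≤ p ∧ p.Prime)) (by fun_prop) ?_) (by fun_prop)
  have hn' : PolyTime (fun z : α × ℕ => n z.1) := PolyTime.comp hn (by fun_prop)
  exact PolyTime.decide_and (PolyTime.decide_le hn' (by fun_prop)) (pt_prime (by fun_prop))

theorem ptl : PtlStmt := by
  intro α _ n m b hn hm hb
  refine ⟨?_, pt_log hn, pt_np hn, pt_cpw hn hb hm, fun h => ?_⟩
  · unfold lg
    exact PolyTime.add (pt_log hn) (by fun_prop)
  · refine PolyTime.congr (pt_cpw hn (PolyTime.const 2) hm) fun a => ?_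
    have h1 := h a
    rw [cpw_eq (Nat.one_le_two_pow.trans h1) (by norm_num)]
    exact min_eq_right h1

end Pool.Agent.Helper3.DT
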